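import Mathlib

set_option autoImplicit false

/-! # A `C^1` map which decodes digits -/

namespace Pool.Agent.Zk25.KakCode

open Set
open scoped ContDiff

/-! ## Bump functions on the circle -/

theorem psi (c : ℕ) (hc : 1 ≤ c) : ∃ ψ : Fin c → ℝ → ℝ, (∀ e, ContDiff ℝ 1 (ψ e)) ∧
    (∀ e (y : ℝ) (m : ℤ), ψ e (y + m) = ψ e y) ∧
    ∀ (e e' : Fin c) (y : ℝ), 2 * ((e' : ℕ) : ℝ) ≤ 2 * c * y → 2 * c * y ≤ 2 * ((e' : ℕ) : ℝ) + 1 →
      ψ e y = if e = e' then 1 else 0 := by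
  classical
  rcases Nat.lt_or_ge 1 c with h1 | h1
  swap
  · have hc1 : c = 1 := le_antisymm h1 hc
    subst hc1
    refine ⟨fun _ _ => 1, fun _ => contDiff_const, fun _ _ _ => rfl, fun e e' y _ _ => ?_⟩
    rw [if_pos (Subsingleton.elim e e')]
  have hc2 : (2 : ℝ) ≤ c := by exact_mod_cast h1
  have hc0 : (0 : ℝ) < c := by linarith
  -- the two thresholds
  obtain ⟨u, hu⟩ : ∃ u : ℝ, u = Real.pi / (2 * c) := ⟨_, rfl⟩
  have hu0 : 0 < u := by rw [hu]; positivity
  have hu4 : 4 * u ≤ Real.pi := by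
    rw [hu, mul_div_assoc', div_le_iff₀ (by positivity)]
    nlinarith [Real.pi_pos]
  have hΔ : 0 < Real.cos u - Real.cos (3 * u) := by
    have := Real.cos_lt_cos_of_nonneg_of_le_pi hu0.le (by linarith : 3 * u ≤ Real.pi)
      (by linarith)
    linarith
  have hpi : Real.pi = 2 * c * u := by
    rw [hu]
    field_simp
  refine ⟨fun e y => Real.smoothTransition ((Real.cos (2 * Real.pi * y - (4 * ((e : ℕ) : ℝ) + 1) * u) -
    Real.cos (3 * u)) / (Real.cos u - Real.cos (3 * u))), fun e => ?_, fun e y m => ?_,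
    fun e e' y h3 h4 => ?_⟩
  · apply Real.smoothTransition.contDiff.comp
    apply ContDiff.div_const
    apply ContDiff.sub _ contDiff_const
    exact Real.contDiff_cos.comp ((contDiff_const.mul contDiff_id).sub contDiff_const)
  · have h5 : 2 * Real.pi * (y + m) - (4 * ((e : ℕ) : ℝ) + 1) * u =
        2 * Real.pi * y - (4 * ((e : ℕ) : ℝ) + 1) * u + m * (2 * Real.pi) := by ring
    simp only [h5, Real.cos_add_int_mul_two_pi]
  · obtain ⟨z, hz⟩ : ∃ z : ℝ, z = 2 * Real.pi * y - (4 * ((e : ℕ) : ℝ) + 1) * u := ⟨_, rfl⟩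
    have hz' : z = (2 * (2 * c * y) - (4 * ((e : ℕ) : ℝ) + 1)) * u := by
      rw [hz, hpi]
      ring
    simp only [← hz]
    by_cases hee : e = e'
    · rw [if_pos hee]
      apply Real.smoothTransition.one_of_one_le
      rw [le_div_iff₀ hΔ, one_mul]
      have h5 : |z| ≤ u := by
        rw [hz', abs_mul, abs_of_pos hu0]
        have h6 : |2 * (2 * (c : ℝ) * y) - (4 * ((e : ℕ) : ℝ) + 1)| ≤ 1 := by
          rw [abs_le, hee]
          constructor <;> linarith
        nlinarith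
      have h6 : Real.cos u ≤ Real.cos z := by
        rw [← Real.cos_abs z]
        exact Real.cos_le_cos_of_nonneg_of_le_pi (abs_nonneg z) (by linarith) h5
      linarith
    · rw [if_neg hee]
      apply Real.smoothTransition.zero_of_nonpos
      apply div_nonpos_of_nonpos_of_nonneg _ hΔ.le
      have he : ((e : ℕ) : ℝ) + 1 ≤ c := by exact_mod_cast e.isLt
      have he' : ((e' : ℕ) : ℝ) + 1 ≤ c := by exact_mod_cast e'.isLt
      have h0 : (0 : ℝ) ≤ ((e : ℕ) : ℝ) := Nat.cast_nonneg _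
      have h0' : (0 : ℝ) ≤ ((e' : ℕ) : ℝ) := Nat.cast_nonneg _
      have h5 : 3 * u ≤ |z| ∧ |z| ≤ 2 * Real.pi - 3 * u := by
        rw [hz', abs_mul, abs_of_pos hu0, hpi]
        have h7 : (3 : ℝ) ≤ |2 * (2 * (c : ℝ) * y) - (4 * ((e : ℕ) : ℝ) + 1)| ∧
            |2 * (2 * (c : ℝ) * y) - (4 * ((e : ℕ) : ℝ) + 1)| ≤ 4 * c - 3 := by
          have hne : (e : ℕ) ≠ (e' : ℕ) := fun h => hee (Fin.ext h)
          rcases Nat.lt_or_gt_of_ne hne with h8 | h8
          · have h9 : ((e : ℕ) : ℝ) + 1 ≤ ((e' : ℕ) : ℝ) := by exact_mod_cast h8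
            rw [abs_of_nonneg (by linarith)]
            constructor <;> linarith
          · have h9 : ((e' : ℕ) : ℝ) + 1 ≤ ((e : ℕ) : ℝ) := by exact_mod_cast h8
            rw [abs_of_nonpos (by linarith)]
            constructor <;> linarith
        constructor
        · exact mul_le_mul_of_nonneg_right h7.1 hu0.le
        · calc |2 * (2 * (c : ℝ) * y) - (4 * ((e : ℕ) : ℝ) + 1)| * u ≤ (4 * c - 3) * u :=
                mul_le_mul_of_nonneg_right h7.2 hu0.le
            _ = 2 * (2 * c * u) - 3 * u := by ring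
      have h6 : Real.cos z ≤ Real.cos (3 * u) := by
        rw [← Real.cos_abs z]
        rcases le_total |z| Real.pi with h7 | h7
        · exact Real.cos_le_cos_of_nonneg_of_le_pi (by linarith) h7 h5.1
        · rw [← Real.cos_two_pi_sub]
          exact Real.cos_le_cos_of_nonneg_of_le_pi (by linarith) (by linarith) (by linarith [h5.2])
      linarith

/-! ## Periodic functions -/

theorem bdd_of_periodic {d : ℕ} {F : Type} [NormedAddCommGroup F]
    (f : EuclideanSpace ℝ (Fin d) → F) (hf : Continuous f)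
    (hp : ∀ (y : EuclideanSpace ℝ (Fin d)) (m : Fin d → ℤ),
      f (y + WithLp.toLp 2 (fun i => (m i : ℝ))) = f y) :
    ∃ M, ∀ y, ‖f y‖ ≤ M := by
  have hK : IsCompact ((fun y : Fin d → ℝ => (WithLp.toLp 2 y : EuclideanSpace ℝ (Fin d))) ''
      Icc (fun _ => 0) (fun _ => 1)) :=
    isCompact_Icc.image (PiLp.continuous_toLp 2 _)
  obtain ⟨M, hM⟩ := hK.exists_bound_of_continuousOn hf.continuousOn
  refine ⟨M, fun y => ?_⟩
  have h1 : y = WithLp.toLp 2 (fun i => Int.fract (y i)) +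
      WithLp.toLp 2 (fun i => ((⌊y i⌋ : ℤ) : ℝ)) := by
    ext i
    exact (Int.fract_add_floor (y i)).symm
  rw [h1, hp]
  exact hM _ ⟨_, ⟨fun i => Int.fract_nonneg _, fun i => (Int.fract_lt_one _).le⟩, rfl⟩

/-! ## The series -/

theorem series {d : ℕ} (b N : ℝ) (hb : 1 ≤ b) (hN : b < N) (P : EuclideanSpace ℝ (Fin d) → ℝ)
    (hP : ContDiff ℝ 1 P) {M0 M1 : ℝ} (h0 : ∀ y, ‖P y‖ ≤ M0) (h1 : ∀ y, ‖fderiv ℝ P y‖ ≤ M1) :
    ContDiff ℝ 1 (fun x => ∑' J : ℕ, P (b ^ J • x) / N ^ (J + 1)) := by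
  have hN0 : 0 < N := by linarith
  have hb0 : 0 < b := by linarith
  have key := contDiff_tsum (𝕜 := ℝ) (E := EuclideanSpace ℝ (Fin d)) (F := ℝ) (N := 1)
    (f := fun (J : ℕ) x => P (b ^ J • x) / N ^ (J + 1))
    (v := fun _ (J : ℕ) => (|M0| + |M1|) / N * (b / N) ^ J) ?_ ?_ ?_
  · exact key
  · intro J
    exact (hP.comp (contDiff_id.const_smul (b ^ J))).div_const _
  · intro k _
    exact (summable_geometric_of_lt_one (by positivity) ((div_lt_one hN0).2 hN)).mul_left _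
  · intro k J x hk
    have hbJ : 1 ≤ b ^ J := one_le_pow₀ hb
    have e0 : (|M0| + |M1|) / N * (b / N) ^ J = (|M0| + |M1|) * b ^ J / N ^ (J + 1) := by
      rw [div_pow, pow_succ']
      field_simp
    rw [e0]
    have hk2 : k = 0 ∨ k = 1 := by
      have : k ≤ 1 := by exact_mod_cast hk
      omega
    rcases hk2 with rfl | rfl
    · rw [norm_iteratedFDeriv_zero, norm_div, Real.norm_of_nonneg (by positivity : 0 ≤ N ^ (J + 1))]
      apply div_le_div_of_nonneg_right _ (by positivity)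
      calc ‖P (b ^ J • x)‖ ≤ M0 := h0 _
        _ ≤ |M0| := le_abs_self _
        _ ≤ (|M0| + |M1|) * 1 := by rw [mul_one]; linarith [abs_nonneg M1]
        _ ≤ (|M0| + |M1|) * b ^ J := mul_le_mul_of_nonneg_left hbJ (by positivity)
    · rw [norm_iteratedFDeriv_one]
      have hd : HasFDerivAt (fun x : EuclideanSpace ℝ (Fin d) => P (b ^ J • x) / N ^ (J + 1))
          ((N ^ (J + 1))⁻¹ • ((fderiv ℝ P (b ^ J • x)).comp
            (b ^ J • ContinuousLinearMap.id ℝ (EuclideanSpace ℝ (Fin d))))) x := by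
        have e1 : HasFDerivAt (fun x : EuclideanSpace ℝ (Fin d) => b ^ J • x)
            (b ^ J • ContinuousLinearMap.id ℝ (EuclideanSpace ℝ (Fin d))) x :=
          (hasFDerivAt_id (𝕜 := ℝ) x).const_smul (b ^ J)
        have e2 : HasFDerivAt P (fderiv ℝ P (b ^ J • x)) (b ^ J • x) :=
          (hP.differentiable one_ne_zero _).hasFDerivAt
        have e3 := (e2.comp x e1).const_smul ((N ^ (J + 1))⁻¹)
        refine e3.congr_of_eventuallyEq (Filter.Eventually.of_forall fun y => ?_)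
        simp only [Pi.smul_apply, Function.comp_apply, smul_eq_mul]
        rw [div_eq_inv_mul]
      rw [hd.fderiv, norm_smul, norm_inv, Real.norm_of_nonneg (by positivity : 0 ≤ N ^ (J + 1)),
        ← div_eq_inv_mul]
      apply div_le_div_of_nonneg_right _ (by positivity)
      calc ‖(fderiv ℝ P (b ^ J • x)).comp (b ^ J • ContinuousLinearMap.id ℝ (EuclideanSpace ℝ (Fin d)))‖
          ≤ ‖fderiv ℝ P (b ^ J • x)‖ * ‖b ^ J • ContinuousLinearMap.id ℝ (EuclideanSpace ℝ (Fin d))‖ :=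
            ContinuousLinearMap.opNorm_comp_le _ _
        _ ≤ (|M0| + |M1|) * b ^ J := by
          apply mul_le_mul _ _ (norm_nonneg _) (by positivity)
          · exact (h1 _).trans ((le_abs_self _).trans (by linarith [abs_nonneg M0]))
          · rw [norm_smul, Real.norm_of_nonneg (by positivity : 0 ≤ b ^ J)]
            exact (mul_le_mul_of_nonneg_left ContinuousLinearMap.norm_id_le (by positivity)).trans
              (by rw [mul_one])

/-! ## Digits -/

theorem digits (c : ℕ) (a : ℕ → Fin c) : ∃ t : ℕ → ℝ, (∀ J, 0 ≤ t J ∧ t J ≤ 1) ∧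
    ∀ J, 2 * (c : ℝ) * t J = 2 * ((a J : ℕ) : ℝ) + t (J + 1) := by
  let a' : ℕ → Fin (2 * c) := fun J => ⟨2 * a J, by have := (a J).isLt; omega⟩
  have hc0 : (0 : ℝ) < 2 * c := by
    have h : 0 < c := (a 0).pos
    have : (0 : ℝ) < c := by exact_mod_cast h
    linarith
  refine ⟨fun J => Real.ofDigits (fun i => a' (i + J)), fun J => ⟨Real.ofDigits_nonneg _,
    Real.ofDigits_le_one _⟩, fun J => ?_⟩
  have h := Real.ofDigits_eq_sum_add_ofDigits (fun i => a' (i + J)) 1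
  rw [Finset.sum_range_one, pow_one] at h
  show 2 * (c : ℝ) * Real.ofDigits (fun i => a' (i + J)) = _
  rw [h]
  have e1 : (fun i => a' (i + 1 + J)) = (fun i => a' (i + (J + 1))) := by
    funext i
    congr 1
    omega
  rw [e1]
  simp only [Real.ofDigitsTerm, a', zero_add, pow_one]
  push_cast
  rw [mul_add, mul_comm (2 * ((a J : ℕ) : ℝ)), ← mul_assoc, ← mul_assoc, mul_inv_cancel₀ hc0.ne',
    one_mul, ← mul_assoc, mul_inv_cancel₀ hc0.ne', one_mul]

theorem digits_int (c : ℕ) (a : ℕ → Fin c) (t : ℕ → ℝ)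
    (ht : ∀ J, 2 * (c : ℝ) * t J = 2 * ((a J : ℕ) : ℝ) + t (J + 1)) (J : ℕ) :
    ∃ m : ℤ, ((2 * c : ℕ) : ℝ) ^ J * t 0 = t J + m := by
  induction J with
  | zero => exact ⟨0, by simp⟩
  | succ J ih =>
    obtain ⟨m, hm⟩ := ih
    refine ⟨2 * (a J : ℕ) + 2 * c * m, ?_⟩
    have := ht J
    push_cast at hm ⊢
    calc (2 * (c : ℝ)) ^ (J + 1) * t 0 = 2 * c * ((2 * c) ^ J * t 0) := by ring
      _ = 2 * c * t J + 2 * c * m := by rw [hm]; ring
      _ = _ := by rw [this]; ring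

/-! ## The map -/

theorem c1_code (d n c N : ℕ) (hc : 1 ≤ c) (hN : 2 * c < N) (A : Finset (Fin n → ℤ))
    (hA : A.card ≤ c ^ d) :
    ∃ g : EuclideanSpace ℝ (Fin d) → EuclideanSpace ℝ (Fin n), ContDiff ℝ 1 g ∧
      ∀ α : ℕ → Fin n → ℤ, (∀ J, α J ∈ A) →
        ∃ x : EuclideanSpace ℝ (Fin d), (∀ i, x i ∈ Icc (0 : ℝ) 1) ∧
          ∀ i, g x i = ∑' J : ℕ, (α J i : ℝ) / (N : ℝ) ^ (J + 1) := by
  classical
  obtain ⟨ψ, hψ1, hψ2, hψ3⟩ := psi c hc
  have hcard : Fintype.card A ≤ Fintype.card (Fin d → Fin c) := by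
    rw [Fintype.card_coe, Fintype.card_fun, Fintype.card_fin, Fintype.card_fin]
    exact hA
  obtain ⟨φ⟩ := Function.Embedding.nonempty_of_card_le hcard
  -- the periodic functions
  let P : Fin n → EuclideanSpace ℝ (Fin d) → ℝ := fun i y =>
    ∑ a : A, (∏ l, ψ (φ a l) (y l)) * (a.1 i : ℝ)
  have hP1 : ∀ i, ContDiff ℝ 1 (P i) := by
    intro i
    refine ContDiff.sum fun a _ => ContDiff.mul ?_ contDiff_const
    refine contDiff_prod fun l _ => (hψ1 _).comp ?_
    exact (EuclideanSpace.proj l : EuclideanSpace ℝ (Fin d) →L[ℝ] ℝ).contDiff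
  have hP2 : ∀ i (y : EuclideanSpace ℝ (Fin d)) (m : Fin d → ℤ),
      P i (y + WithLp.toLp 2 (fun i => (m i : ℝ))) = P i y := by
    intro i y m
    simp only [P, PiLp.add_apply, hψ2]
  have hM0 : ∀ i, ∃ M, ∀ y, ‖P i y‖ ≤ M := fun i =>
    bdd_of_periodic (P i) (hP1 i).continuous (hP2 i)
  have hM1 : ∀ i, ∃ M, ∀ y, ‖fderiv ℝ (P i) y‖ ≤ M := fun i =>
    bdd_of_periodic (fderiv ℝ (P i)) ((hP1 i).continuous_fderiv one_ne_zero) (fun y m => by
      have h1 : (fun y => P i (y + WithLp.toLp 2 (fun i => (m i : ℝ)))) = P i :=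
        funext fun y => hP2 i y m
      have h2 := fderiv_comp_add_right (𝕜 := ℝ) (f := P i) (x := y)
        (WithLp.toLp 2 (fun i => (m i : ℝ)))
      rw [← h2, h1])
  choose M0 hM0 using hM0
  choose M1 hM1 using hM1
  have hbN : ((2 * c : ℕ) : ℝ) < N := by exact_mod_cast hN
  have hb1 : (1 : ℝ) ≤ ((2 * c : ℕ) : ℝ) := by
    have : 1 ≤ 2 * c := by omega
    exact_mod_cast this
  refine ⟨fun x => WithLp.toLp 2 fun i =>
    ∑' J : ℕ, P i (((2 * c : ℕ) : ℝ) ^ J • x) / (N : ℝ) ^ (J + 1), ?_, fun α hα => ?_⟩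
  · rw [contDiff_euclidean]
    intro i
    exact series _ _ hb1 hbN (P i) (hP1 i) (hM0 i) (hM1 i)
  · have hd := fun l => digits c (fun J => φ ⟨α J, hα J⟩ l)
    choose t ht1 ht2 using hd
    refine ⟨WithLp.toLp 2 fun l => t l 0, fun l => ⟨(ht1 l 0).1, (ht1 l 0).2⟩, fun i => ?_⟩
    show ∑' J : ℕ, P i (((2 * c : ℕ) : ℝ) ^ J • WithLp.toLp 2 fun l => t l 0) /
      (N : ℝ) ^ (J + 1) = _
    refine tsum_congr fun J => ?_
    congr 1
    have hval : ∀ (a : A) l, ψ (φ a l) (((2 * c : ℕ) : ℝ) ^ J * t l 0) =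
        if φ a l = φ ⟨α J, hα J⟩ l then 1 else 0 := by
      intro a l
      obtain ⟨m, hm⟩ := digits_int c _ (t l) (ht2 l) J
      rw [hm, hψ2]
      have h3 := ht2 l J
      have h4 := ht1 l (J + 1)
      refine hψ3 _ _ _ ?_ ?_
      · rw [h3]
        linarith [h4.1]
      · rw [h3]
        linarith [h4.2]
    show ∑ a : A, (∏ l, ψ (φ a l) (((2 * c : ℕ) : ℝ) ^ J * t l 0)) * (a.1 i : ℝ) = (α J i : ℝ)
    simp only [hval]
    rw [Finset.sum_eq_single (⟨α J, hα J⟩ : A)]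
    · simp
    · intro a _ ha
      have h5 : ∃ l, φ a l ≠ φ ⟨α J, hα J⟩ l := by
        by_contra hcon
        push Not at hcon
        exact ha (φ.injective (funext hcon))
      obtain ⟨l, hl⟩ := h5
      rw [Finset.prod_eq_zero (Finset.mem_univ l) (if_neg hl), zero_mul]
    · intro h
      exact absurd (Finset.mem_univ _) h

end Pool.Agent.Zk25.KakCode
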