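import Mathlib

set_option autoImplicit false

/-!
The Hausdorff dimension of the image of a subset of `Z × [-M, M]^m` under a map which is Lipschitz in
the first variable and of Hölder exponent `N` in the second one.
-/

open Topology Filter Set MeasureTheory
open scoped ENNReal NNReal

namespace Pool.Agent.Zk25.Kak

noncomputable section

theorem cover_exists {X : Type} [MetricSpace X] [MeasurableSpace X] [BorelSpace X] {d : ℝ}
    (hd : 0 < d) {K : Set X} (hK : μH[d] K = 0) {r : ℝ} (hr : 0 < r) :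
    ∃ t : ℕ → Set X, K ⊆ ⋃ n, t n ∧ (∀ n, Metric.ediam (t n) ≤ ENNReal.ofReal r) ∧
      ∑' n, Metric.ediam (t n) ^ d < 1 := by
  rw [Measure.hausdorffMeasure_apply] at hK
  have h1 := (ENNReal.iSup_eq_zero.1 hK) (ENNReal.ofReal r)
  have h2 := (ENNReal.iSup_eq_zero.1 h1) (by simpa using hr)
  have h3 : (⨅ (t : ℕ → Set X) (_ : K ⊆ ⋃ n, t n) (_ : ∀ n, Metric.ediam (t n) ≤ ENNReal.ofReal r),
          ∑' n, ⨆ _ : (t n).Nonempty, Metric.ediam (t n) ^ d) < 1 := by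
    rw [h2]; exact one_pos
  obtain ⟨t, h4⟩ := iInf_lt_iff.1 h3
  obtain ⟨ht1, h5⟩ := iInf_lt_iff.1 h4
  obtain ⟨ht2, h6⟩ := iInf_lt_iff.1 h5
  refine ⟨t, ht1, ht2, ?_⟩
  have h7 : ∀ n, (⨆ _ : (t n).Nonempty, Metric.ediam (t n) ^ d) = Metric.ediam (t n) ^ d := by
    intro n
    rcases (t n).eq_empty_or_nonempty with h | h
    · rw [h]
      simp [hd]
    · exact ciSup_pos h
  simpa only [h7] using h6

theorem hausdorff_image_le {X W : Type} [MetricSpace X] [MeasurableSpace X] [BorelSpace X]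
    [MetricSpace W] [MeasurableSpace W] [BorelSpace W] (m N : ℕ) (hN : 1 ≤ N)
    (Z : Set X) (A : Set (X × (Fin m → ℝ))) (hAZ : ∀ p ∈ A, p.1 ∈ Z) (M : ℝ) (hM : 0 ≤ M)
    (hAb : ∀ p ∈ A, ∀ i, |p.2 i| ≤ M) (g : X × (Fin m → ℝ) → W) (C : ℝ) (hC : 0 < C)
    (hg : ∀ p ∈ A, ∀ q ∈ A, dist (g p) (g q) ≤ C * (dist p.1 q.1 + dist p.2 q.2 ^ N))
    {d : ℝ} (hd : 0 < d) (hK : μH[d] Z = 0) :
    μH[d + (m : ℝ) / N] (g '' A) ≤
      ENNReal.ofReal (2 * C) ^ (d + (m : ℝ) / N) * (ENNReal.ofReal ((2 * M + 1) ^ m) * 3) := by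
  have hr : ∀ n : ℕ, (0:ℝ) < 1 / ((n:ℝ) + 1) := fun n => by positivity
  have hN0 : (N : ℝ) ≠ 0 := by positivity
  have hmN : 0 ≤ (m : ℝ) / N := by positivity
  choose t ht1 ht2 ht3 using fun n : ℕ => cover_exists hd hK (hr n)
  -- the sizes
  set η : ℕ → ℕ → ℝ := fun n i => min (1 / ((n:ℝ) + 1)) (((1 / 2 : ℝ) ^ i) ^ (1 / d)) with hη
  have hη0 : ∀ n i, 0 < η n i := fun n i => lt_min (hr n) (by positivity)
  set δ : ℕ → ℕ → ℝ := fun n i => max (Metric.ediam (t n i)).toReal (η n i) with hδ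
  have hδ0 : ∀ n i, 0 < δ n i := fun n i => lt_of_lt_of_le (hη0 n i) (le_max_right _ _)
  have hne : ∀ n i, Metric.ediam (t n i) ≠ ⊤ := fun n i =>
    ne_top_of_le_ne_top ENNReal.ofReal_ne_top (ht2 n i)
  have hδr : ∀ n i, δ n i ≤ 1 / ((n:ℝ) + 1) := by
    intro n i
    apply max_le _ (min_le_left _ _)
    exact ENNReal.toReal_le_of_le_ofReal (hr n).le (ht2 n i)
  have hδ1 : ∀ n i, δ n i ≤ 1 := by
    intro n i
    refine (hδr n i).trans ?_
    rw [div_le_one (by positivity)]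
    linarith [n.cast_nonneg (α := ℝ)]
  have hdiam : ∀ n i, Metric.ediam (t n i) ≤ ENNReal.ofReal (δ n i) := by
    intro n i
    rw [← ENNReal.ofReal_toReal (hne n i)]
    exact ENNReal.ofReal_le_ofReal (le_max_left _ _)
  have hδd : ∀ n i, ENNReal.ofReal (δ n i) ^ d ≤
      Metric.ediam (t n i) ^ d + ENNReal.ofReal ((1 / 2 : ℝ) ^ i) := by
    intro n i
    rcases max_cases (Metric.ediam (t n i)).toReal (η n i) with h | h
    · have h1 : δ n i = (Metric.ediam (t n i)).toReal := h.1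
      rw [h1, ENNReal.ofReal_toReal (hne n i)]
      exact le_self_add
    · have h1 : δ n i = η n i := h.1
      rw [h1, ENNReal.ofReal_rpow_of_nonneg (hη0 n i).le hd.le]
      refine le_trans (ENNReal.ofReal_le_ofReal ?_) le_add_self
      calc (η n i) ^ d ≤ (((1 / 2 : ℝ) ^ i) ^ (1 / d)) ^ d :=
            Real.rpow_le_rpow (hη0 n i).le (min_le_right _ _) hd.le
        _ = (1 / 2 : ℝ) ^ i := by
            rw [← Real.rpow_mul (by positivity), one_div_mul_cancel hd.ne', Real.rpow_one]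
  -- the side length of the cubes
  set h : ℕ → ℕ → ℝ := fun n i => δ n i ^ (1 / (N : ℝ)) with hh
  have hh0 : ∀ n i, 0 < h n i := fun n i => Real.rpow_pos_of_pos (hδ0 n i) _
  have hh1 : ∀ n i, h n i ≤ 1 := fun n i =>
    Real.rpow_le_one (hδ0 n i).le (hδ1 n i) (by positivity)
  have hhN : ∀ n i, h n i ^ N = δ n i := by
    intro n i
    rw [hh]
    simp only
    rw [← Real.rpow_natCast, ← Real.rpow_mul (hδ0 n i).le, one_div_mul_cancel hN0, Real.rpow_one]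
  have hhm : ∀ n i, ENNReal.ofReal (δ n i) ^ ((m : ℝ) / N) = ENNReal.ofReal (h n i ^ m) := by
    intro n i
    rw [ENNReal.ofReal_rpow_of_nonneg (hδ0 n i).le hmN]
    congr 1
    rw [hh]
    simp only
    rw [← Real.rpow_natCast, ← Real.rpow_mul (hδ0 n i).le]
    congr 1
    ring
  set L : ℕ → ℕ → ℕ := fun n i => ⌊2 * M / h n i⌋₊ + 1 with hL
  have hLh : ∀ n i, (L n i : ℝ) * h n i ≤ 2 * M + 1 := by
    intro n i
    have h1 : (⌊2 * M / h n i⌋₊ : ℝ) ≤ 2 * M / h n i :=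
      Nat.floor_le (div_nonneg (by linarith) (hh0 n i).le)
    have h2 : (L n i : ℝ) = ⌊2 * M / h n i⌋₊ + 1 := by
      rw [hL]; push_cast; rfl
    rw [h2, add_mul, one_mul]
    have h3 : (⌊2 * M / h n i⌋₊ : ℝ) * h n i ≤ 2 * M := by
      calc (⌊2 * M / h n i⌋₊ : ℝ) * h n i ≤ 2 * M / h n i * h n i :=
            mul_le_mul_of_nonneg_right h1 (hh0 n i).le
        _ = 2 * M := div_mul_cancel₀ _ (hh0 n i).ne'
    linarith [hh1 n i]
  have hLm : ∀ n i, ((L n i ^ m : ℕ) : ℝ≥0∞) * ENNReal.ofReal (δ n i) ^ ((m : ℝ) / N) ≤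
      ENNReal.ofReal ((2 * M + 1) ^ m) := by
    intro n i
    rw [hhm, ← ENNReal.ofReal_natCast, ← ENNReal.ofReal_mul (Nat.cast_nonneg _)]
    apply ENNReal.ofReal_le_ofReal
    push_cast
    rw [← mul_pow]
    exact pow_le_pow_left₀ (mul_nonneg (Nat.cast_nonneg _) (hh0 n i).le) (hLh n i) m
  -- the covers
  set U : ∀ n : ℕ, (Σ i : ℕ, (Fin m → Fin (L n i))) → Set W := fun n x =>
    g '' {p | p ∈ A ∧ p.1 ∈ t n x.1 ∧ ∀ j, -M + ((x.2 j : ℕ) : ℝ) * h n x.1 ≤ p.2 j ∧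
      p.2 j ≤ -M + (((x.2 j : ℕ) : ℝ) + 1) * h n x.1} with hU
  have hUd : ∀ n x, Metric.ediam (U n x) ≤ ENNReal.ofReal (2 * C * δ n x.1) := by
    intro n x
    refine Metric.ediam_le ?_
    rintro _ ⟨p, ⟨hpA, hpt, hpj⟩, rfl⟩ _ ⟨q, ⟨hqA, hqt, hqj⟩, rfl⟩
    rw [edist_dist]
    apply ENNReal.ofReal_le_ofReal
    refine (hg p hpA q hqA).trans ?_
    have h1 : dist p.1 q.1 ≤ δ n x.1 := by
      have h2 : edist p.1 q.1 ≤ ENNReal.ofReal (δ n x.1) :=
        (Metric.edist_le_ediam_of_mem hpt hqt).trans (hdiam n x.1)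
      rw [edist_dist] at h2
      exact (ENNReal.ofReal_le_ofReal_iff (hδ0 n x.1).le).1 h2
    have h3 : dist p.2 q.2 ≤ h n x.1 := by
      rw [dist_pi_le_iff (hh0 n x.1).le]
      intro j
      rw [Real.dist_eq, abs_le]
      have h4 := hpj j
      have h5 := hqj j
      constructor <;> nlinarith [h4.1, h4.2, h5.1, h5.2]
    have h6 : dist p.2 q.2 ^ N ≤ δ n x.1 := by
      rw [← hhN]
      exact pow_le_pow_left₀ dist_nonneg h3 N
    calc C * (dist p.1 q.1 + dist p.2 q.2 ^ N) ≤ C * (δ n x.1 + δ n x.1) :=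
          mul_le_mul_of_nonneg_left (add_le_add h1 h6) hC.le
      _ = 2 * C * δ n x.1 := by ring
  have hlim : Tendsto (fun n : ℕ => ENNReal.ofReal (2 * C * (1 / ((n:ℝ) + 1)))) atTop (𝓝 0) := by
    have h1 : Tendsto (fun n : ℕ => 2 * C * (1 / ((n:ℝ) + 1))) atTop (𝓝 (2 * C * 0)) :=
      (tendsto_one_div_add_atTop_nhds_zero_nat (𝕜 := ℝ)).const_mul _
    rw [mul_zero] at h1
    have := (ENNReal.continuous_ofReal.tendsto 0).comp h1
    rw [ENNReal.ofReal_zero] at this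
    exact this
  have hmain := Measure.hausdorffMeasure_le_liminf_tsum (d + (m : ℝ) / N) (g '' A)
    (l := atTop) (fun n : ℕ => ENNReal.ofReal (2 * C * (1 / ((n:ℝ) + 1)))) hlim U
    (Eventually.of_forall fun n x => (hUd n x).trans (ENNReal.ofReal_le_ofReal
      (mul_le_mul_of_nonneg_left (hδr n x.1) (by linarith))))
    (Eventually.of_forall fun n => by
      rintro _ ⟨p, hp, rfl⟩
      obtain ⟨i, hi⟩ := mem_iUnion.1 (ht1 n (hAZ p hp))
      have hhi := hh0 n i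
      have hk : ∀ j, ⌊(p.2 j + M) / h n i⌋₊ < L n i := by
        intro j
        have h1 := (abs_le.1 (hAb p hp j)).2
        have h2 : (p.2 j + M) / h n i ≤ 2 * M / h n i :=
          div_le_div_of_nonneg_right (by linarith) hhi.le
        exact Nat.lt_succ_of_le (Nat.floor_le_floor h2)
      refine mem_iUnion.2 ⟨⟨i, fun j => ⟨⌊(p.2 j + M) / h n i⌋₊, hk j⟩⟩, p, ⟨hp, hi, fun j => ?_⟩,
        rfl⟩
      have h0 : 0 ≤ (p.2 j + M) / h n i :=
        div_nonneg (by linarith [(abs_le.1 (hAb p hp j)).1]) hhi.le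
      have h1 := (le_div_iff₀ hhi).1 (Nat.floor_le h0)
      have h2 := (div_lt_iff₀ hhi).1 (Nat.lt_floor_add_one ((p.2 j + M) / h n i))
      constructor
      · show -M + ((⌊(p.2 j + M) / h n i⌋₊ : ℕ) : ℝ) * h n i ≤ p.2 j
        linarith
      · show p.2 j ≤ -M + (((⌊(p.2 j + M) / h n i⌋₊ : ℕ) : ℝ) + 1) * h n i
        linarith)
  refine hmain.trans ?_
  have hdm : 0 ≤ d + (m : ℝ) / N := by positivity
  have hbound : ∀ n, ∑' x, Metric.ediam (U n x) ^ (d + (m : ℝ) / N) ≤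
      ENNReal.ofReal (2 * C) ^ (d + (m : ℝ) / N) * (ENNReal.ofReal ((2 * M + 1) ^ m) * 3) := by
    intro n
    calc ∑' x, Metric.ediam (U n x) ^ (d + (m : ℝ) / N)
        ≤ ∑' x : (Σ i : ℕ, (Fin m → Fin (L n i))),
            ENNReal.ofReal (2 * C * δ n x.1) ^ (d + (m : ℝ) / N) :=
          ENNReal.tsum_le_tsum fun x => ENNReal.rpow_le_rpow (hUd n x) hdm
      _ = ∑' i, ∑' _ : (Fin m → Fin (L n i)),
            ENNReal.ofReal (2 * C * δ n i) ^ (d + (m : ℝ) / N) :=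
          ENNReal.tsum_sigma (fun i (_ : Fin m → Fin (L n i)) =>
            ENNReal.ofReal (2 * C * δ n i) ^ (d + (m : ℝ) / N))
      _ = ∑' i, ((L n i ^ m : ℕ) : ℝ≥0∞) *
            ENNReal.ofReal (2 * C * δ n i) ^ (d + (m : ℝ) / N) := by
          apply tsum_congr
          intro i
          rw [tsum_fintype]
          simp
      _ ≤ ∑' i, ENNReal.ofReal (2 * C) ^ (d + (m : ℝ) / N) * (ENNReal.ofReal ((2 * M + 1) ^ m) *
            (Metric.ediam (t n i) ^ d + ENNReal.ofReal ((1 / 2 : ℝ) ^ i))) := by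
          apply ENNReal.tsum_le_tsum
          intro i
          rw [ENNReal.ofReal_mul (by linarith), ENNReal.mul_rpow_of_nonneg _ _ hdm,
            ENNReal.rpow_add_of_nonneg (x := ENNReal.ofReal (δ n i)) _ _ hd.le hmN]
          calc ((L n i ^ m : ℕ) : ℝ≥0∞) * (ENNReal.ofReal (2 * C) ^ (d + (m : ℝ) / N) *
                (ENNReal.ofReal (δ n i) ^ d * ENNReal.ofReal (δ n i) ^ ((m : ℝ) / N)))
              = ENNReal.ofReal (2 * C) ^ (d + (m : ℝ) / N) *
                ((((L n i ^ m : ℕ) : ℝ≥0∞) * ENNReal.ofReal (δ n i) ^ ((m : ℝ) / N)) *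
                  ENNReal.ofReal (δ n i) ^ d) := by ring
            _ ≤ _ := mul_le_mul' le_rfl (mul_le_mul' (hLm n i) (hδd n i))
      _ = ENNReal.ofReal (2 * C) ^ (d + (m : ℝ) / N) * (ENNReal.ofReal ((2 * M + 1) ^ m) *
            (∑' i, Metric.ediam (t n i) ^ d + ∑' i, ENNReal.ofReal ((1 / 2 : ℝ) ^ i))) := by
          rw [ENNReal.tsum_mul_left, ENNReal.tsum_mul_left, ENNReal.tsum_add]
      _ ≤ ENNReal.ofReal (2 * C) ^ (d + (m : ℝ) / N) *
            (ENNReal.ofReal ((2 * M + 1) ^ m) * (1 + 2)) := by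
          gcongr
          · exact (ht3 n).le
          · rw [← ENNReal.ofReal_tsum_of_nonneg (fun i => by positivity)
              (summable_geometric_of_lt_one (by norm_num) (by norm_num)),
              tsum_geometric_of_lt_one (by norm_num) (by norm_num)]
            norm_num
      _ = _ := by norm_num
  calc liminf (fun n => ∑' x, Metric.ediam (U n x) ^ (d + (m : ℝ) / N)) atTop
      ≤ liminf (fun _ : ℕ => ENNReal.ofReal (2 * C) ^ (d + (m : ℝ) / N) *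
          (ENNReal.ofReal ((2 * M + 1) ^ m) * 3)) atTop :=
        liminf_le_liminf (Eventually.of_forall hbound)
    _ = _ := liminf_const _

theorem dimH_image_le_add {X W : Type} [MetricSpace X] [MetricSpace W] (m N : ℕ) (hN : 1 ≤ N)
    (Z : Set X) (A : Set (X × (Fin m → ℝ))) (hAZ : ∀ p ∈ A, p.1 ∈ Z) (M : ℝ)
    (hAb : ∀ p ∈ A, ∀ i, |p.2 i| ≤ M) (g : X × (Fin m → ℝ) → W) (C : ℝ)
    (hg : ∀ p ∈ A, ∀ q ∈ A, dist (g p) (g q) ≤ C * (dist p.1 q.1 + dist p.2 q.2 ^ N)) :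
    dimH (g '' A) ≤ dimH Z + (m : ℝ≥0∞) / (N : ℝ≥0∞) := by
  borelize X
  borelize W
  have hN0 : (N : ℝ≥0) ≠ 0 := by
    have : N ≠ 0 := by omega
    exact_mod_cast this
  have hcoe : (((m : ℝ≥0) / (N : ℝ≥0) : ℝ≥0) : ℝ≥0∞) = (m : ℝ≥0∞) / (N : ℝ≥0∞) := by
    rw [ENNReal.coe_div hN0]
    simp
  refine le_of_forall_gt_imp_ge_of_dense fun c hc => ?_
  have h1 : dimH Z < c - (m : ℝ≥0∞) / (N : ℝ≥0∞) := lt_tsub_iff_right.2 hc
  obtain ⟨d, hd1, hd2⟩ := ENNReal.lt_iff_exists_nnreal_btwn.1 h1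
  have hd0 : 0 < d := by
    rcases eq_or_lt_of_le (zero_le (a := d)) with h | h
    · exfalso
      rw [← h] at hd1
      exact not_lt_bot hd1
    · exact h
  have h2 := hausdorff_image_le m N hN Z A hAZ |M| (abs_nonneg M)
    (fun p hp i => (hAb p hp i).trans (le_abs_self M)) g (|C| + 1) (by positivity)
    (fun p hp q hq => (hg p hp q hq).trans (mul_le_mul_of_nonneg_right
      ((le_abs_self C).trans (by linarith)) (by positivity)))
    (by exact_mod_cast hd0) (hausdorffMeasure_of_dimH_lt hd1)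
  have h3 : μH[((d + (m : ℝ≥0) / (N : ℝ≥0) : ℝ≥0) : ℝ)] (g '' A) ≠ ⊤ := by
    push_cast
    refine ne_top_of_le_ne_top ?_ h2
    refine ENNReal.mul_ne_top ?_ (ENNReal.mul_ne_top ENNReal.ofReal_ne_top (by norm_num))
    exact ENNReal.rpow_ne_top_of_nonneg (by positivity) ENNReal.ofReal_ne_top
  have h4 := dimH_le_of_hausdorffMeasure_ne_top h3
  refine h4.trans ?_
  rw [ENNReal.coe_add, hcoe]
  exact (lt_tsub_iff_right.1 hd2).le

end

end Pool.Agent.Zk25.Kak
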